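import Pool.Agent.R936.Sm.Ex

/-!
# The absolute Hodge conjecture: the excess law for products with factors of CM type

Let `X i`, `i ∈ I`, be a family (finite or infinite) of smooth projective complex varieties whose
cohomology is of CM type, such that the Hodge group of the sum of the Hodge structures `H(X i)` is of
dimension at most `R`. For instance all abelian varieties with complex multiplication by subfields of
one CM field `F`, with `R = [F : ℚ] / 2`; the Fermat varieties of one degree.

Let `D` be a set of comparison isomorphisms with the Hodge theories of conjugates: for instance the one
of the de Rham cohomology for one automorphism `σ` of the complex numbers (Q1 of the problem), or the one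
of the `ℓ`-adic cohomology for one `σ` and one prime `ℓ` (Q2), or all of them for one `σ` (the
canonical form of Deligne, with one class `v_σ` for all comparisons), or all of them for all `σ`. For a
variety `V` let

`e(V) = dim (Hodge classes on V) - dim (Hodge classes on V which correspond to Hodge classes under D)`

be the number of exceptional classes: the absolute Hodge conjecture holds for `V` and `D` if and only if
`e(V) = 0`.

*Theorem.* There is one product `Y` of members of the family with the following property. Let `D` be
**any** set of comparisons for which the Hodge classes on the products with at most `R + 1` different
members correspond to Hodge classes (a theorem of Deligne if the members are abelian varieties), `ℓ`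
a natural number, and `Z` **any** smooth projective variety such that the level of the Hodge structure
`H(Z)` is at most `ℓ`. Then for all products `P` of members of the family (of unbounded dimension)

`e(Z × P) ≤ b(P) e(Z × Y ^ ℓ)`,

where `b(P)` is the sum of the Betti numbers of `P` (and `Y ^ ℓ = Y` for `ℓ = 0`). In particular the
absolute Hodge conjecture for all `Z × P` is equivalent to the conjecture for `Z × Y ^ ℓ`; and if
it should fail then there is a bound, linear in `b(P)`, for the failure on all the products. (The theorem
states the inequality without differences; `hodgeDim` and `absDim` are the two dimensions.)

*Proof.* Let `L` be the algebraic closure of the field of coefficients. The cohomology of the members has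
bases of eigenvectors over `L`. The classes on `Z × P` are sums of classes `z_a ⊗ w_a`, with the
`b(P)` products `w_a` of eigenvectors. If `z_a ≠ 0` for a Hodge class then the differences of the Hodge
types of the conjugates of `w_a` are bounded by `ℓ`, and by a lemma of Dickson type there is a product
`b_a` of eigenvectors on `Y ^ ℓ` with the same differences. The linear map which sends a class to
`z_a ⊗ b_a` is the contraction with a class on `P × Y ^ ℓ` which is spanned by Hodge classes, so by
classes which correspond to Hodge classes under `D` (the hypothesis extends from the products with
`R + 1` different members to all products of members). So it maps Hodge classes to Hodge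
classes, and preserves the correspondence to Hodge classes; and a Hodge class corresponds to a Hodge
class if the images under the `b(P)` maps do, since `z_a ⊗ w_a` is a contraction of `z_a ⊗ b_a`.
-/

universe u w

namespace Pool.Agent.Results.MP_e2e4f5_ag.ExcessLaw

open H914 Y121.AHS R936.Sm VarClass Obj WeilCohomology

/-- **The excess law**: for a family of varieties with a Hodge group of CM type of dimension at most `R`
there is one product `Y` of members such that for every set `D` of comparisons with conjugates for which
the Hodge classes on the products with at most `R + 1` different members have Hodge conjugates, and
every variety `Z` of Hodge level at most `ℓ`: the number of exceptional classes on `Z × P`, `P` a product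
of members of the family, is at most `b(P)` times the number of exceptional classes on `Z × Y ^ ℓ`. -/
theorem result {k : Type u} [Field k] {𝒱 : VarClass k} {ops : CycleOps 𝒱} (T : HodgeTheory ops)
    (hpos : NonnegTypes T) {I : Type w} [Nonempty I] (X : I → 𝒱.Obj)
    (hX : ∀ i, IsCM T (X i)) (R : ℕ) (hR : HgDimLe T X R) :
    ∃ (i0 : I) (L0 : List I), ∀ D : Conjugates T,
      (∀ i L, (∃ F : Finset I, F.card ≤ R + 1 ∧ ∀ j ∈ i :: L, j ∈ F) →
        AllConjHodge D (prodOf X i L)) →
      ∀ (ℓ : ℕ) (Z : 𝒱.Obj), LevelIsLe T Z ℓ → ∀ (i : I) (L : List I),
        hodgeDim T (Z.prod (prodOf X i L)) + totalBetti T (prodOf X i L) *
            absDim D (Z.prod (powerOf X i0 L0 ℓ)) ≤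
          absDim D (Z.prod (prodOf X i L)) + totalBetti T (prodOf X i L) *
            hodgeDim T (Z.prod (powerOf X i0 L0 ℓ)) :=
  ex_main hpos hX hR

end Pool.Agent.Results.MP_e2e4f5_ag.ExcessLaw
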