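import Pool.Agent.R919.AH.Fin

/-!
# MP_e2e4f5_ag: the absolute Hodge conjecture for the products of an arbitrary variety with all but few
elliptic curves

Let `V j`, for `j` in a set `J` of indices, be polarized rational Hodge structures, for example the
rational cohomology of smooth projective complex varieties `Y_j`, and let `o` be a distinguished index.
The Hodge structure `M = V o` (the cohomology of a variety `X`) is ARBITRARY. The family of the other
`V j` is an **arbitrary independent family** (`IndependentFamily`), for example `V j = H^1(E_j)` for
arbitrary pairwise non-isogenous elliptic curves `E_j`, with or without complex multiplication.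

The theorem: there is a set `S` of at most `dim M / 2` exceptional indices such that for each
automorphism `σ` of `ℂ`, and **separately for the de Rham part (Q1) and for the `ℓ`-adic part (Q2) for
each prime `ℓ`** (or for any set of comparisons at once): if all Hodge classes on the tensor powers of
`M` go to Hodge classes of the conjugate variety, then the same is true for all Hodge classes on
the tensor products of tensor powers of the `V j` with `j` not in `S`.

So, if `X` is any smooth projective variety with total Betti number `b`, and if Q1 (or Q2) is true for
the powers `X^a` and `σ` then it is true for all `X^a × E_1^{b_1} × ... × E_r^{b_r}` and `σ`, as soon as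
the at most `b / 2` exceptional elliptic curves are left out. The exceptional curves depend neither on
`σ`, nor on `ℓ`. For the powers of the `E_j` the statement is the theorem of Deligne, and it is a
hypothesis (`AbsHodgeAt V C j` for `j ≠ o`).

The comparison. A `Conjugate` consists of the Hodge structures `V' j` of the conjugate varieties and
comparison matrices `M a j`, for `a` in a set `A`: the columns of `M a j` are the coordinates of the
transports of the elements of the rational basis of `V j` (comparison isomorphism of `Y_j`, transport
by `σ`, inverse of the comparison isomorphism of the conjugate variety), in a rational basis of `V' j`. For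
the de Rham part `A` has one element and the coefficients are the complex numbers; the transport is
semilinear, but it is applied only to rational classes, and `M` is the matrix of the images of the basis.
The Tate twists are distributed: in degree `b` the matrix contains the factor `u ^ (b / 2)`.
-/

namespace Pool.Agent.Results.MP_e2e4f5_ag.FewExceptionalFactors

open Pool.Agent.R919.FE Pool.Agent.R919.AH

theorem result {J : Type} [DecidableEq J] {B : J → Type} [∀ j, Fintype (B j)]
    [∀ j, DecidableEq (B j)] (V : ∀ j, HodgeStructure (B j)) (o : J)
    (h : IndependentFamily V o) :
    ∃ S : Finset J, o ∉ S ∧ 2 * S.card ≤ Fintype.card (B o) ∧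
      (∀ (κ : Type) [Fintype κ] [DecidableEq κ] (f : κ → J), (∀ x, f x ∉ S) →
        hodgeClasses V f ≤ ∏ j ∈ Finset.univ.image f, hodgeClassesOf V f j) ∧
      ∀ C : Conjugate B, (∀ j ∉ S, j ≠ o → AbsHodgeAt V C j) → AbsHodgeAt V C o →
        ∀ (κ : Type) [Fintype κ] [DecidableEq κ] (f : κ → J), (∀ x, f x ∉ S) →
          AbsHodge V C f := by
  obtain ⟨S, hS1, hS2, hS3, hS4⟩ := main V h
  refine ⟨S, hS1, hS2, hS3, fun C hC hO κ _ _ f hf => abs_all V C f (fun j hj => ?_)
    (hS3 κ f hf)⟩
  obtain ⟨x, _, rfl⟩ := Finset.mem_image.1 hj
  by_cases hxo : f x = o
  · rw [hxo]
    exact hO
  · exact hC (f x) (hf x) hxo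

end Pool.Agent.Results.MP_e2e4f5_ag.FewExceptionalFactors
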