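import Mathlib
import Pool.Agent.R913.Ind.Conj

/-!
# Conjugates of Hodge classes on the product of an abelian variety and a variety with independent
periods

Let `A` be a principally polarized abelian variety with the period matrix `Z` (up to isogeny this is
any complex abelian variety), `D = DZ Z` its Hodge operator, a complex matrix which acts on the
complex homology of `A` with the eigenvalues `1` and `-1` on the parts of the Hodge decomposition, let
`Y` be any smooth projective complex variety, given by the Hodge operator `Y.z` (multiplication by
`p - q` on `H^(p, q)(Y)`) in a rational basis of its cohomology, and let `σ` be an automorphism of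
`ℂ`. The conjugates of `A` and `Y` are `A'`, with the period matrix `Z'`, and `Y'`.

Let `P(A)` and `P(Y)` be the spans over `ℚ` of the entries of the Hodge operators of `A` and `Y`. A
*common part* of `A` and `Y` is a complex matrix `X` with entries in the intersection of `P(A)` and
`P(Y)`, of the form `c D + z` with `c` and `z` in `ℂ ⊗ centre of End(A)`, which commutes with all
conjugates of `D - X`; if the trace of `c D` is zero for all `c` in the centre of `End(A) ⊗ ℚ` (if the
Hodge group of `A` is semisimple) we require moreover that `X = e D` for an idempotent `e`.

*Theorem.* Suppose that `0` is the only common part of `A` and `Y`. Then, for all `n`, the conjugate of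
every Hodge class on `A ^ n × Y` is a Hodge class on the conjugate variety if and only if this holds
for `Y`; and then every Hodge class on `A ^ n × Y` is a sum of products of Hodge classes on `A ^ n` and
`Y`, and its conjugate is a sum of products of Hodge classes on `A' ^ n` and `Y'`.

Here `conjugate` is a relation between the rational classes (in degree `2 k` with the twist by
`(2 π i) ^ k`) on a variety and on its conjugate: for the de Rham part (Q1) of the question `x'` is the
conjugate of `x` if their images in the de Rham cohomology of the conjugate variety are equal; for
the `ℓ`-adic part (Q2) if their images in the `ℓ`-adic cohomology are equal; and for Deligne's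
formulation if both are true for all `ℓ`. The theorem holds for every relation with the properties
which are listed in the structure `Conjugation`, one of which is the theorem of Deligne for the
abelian variety `A ^ n`; the automorphism and the cohomology theory are fixed.

There is no condition on the Hodge group of `A`, on its dimension, or on its endomorphisms, the Hodge
classes on `A ^ n` may be exceptional, and `Y` is arbitrary. Examples (not part of the formal
statement): `P(A) ∩ P(Y) = 0`; or `End(A) = ℤ` and one entry of the Hodge operator of `A` is not a
rational linear combination of the entries of the Hodge operator of `Y`.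

*Proof.* By the theorem of MP_4e1cf2_ag.IndependentFactor a Hodge class on `A ^ n × Y` is a sum of
products `f ⊗ x` of Hodge classes. If `f'` and `x'` are conjugates of `f` and `x` which are Hodge
classes then `f' ⊗ x'` is a conjugate of `f ⊗ x` and a Hodge class. Conversely let `x` be a Hodge
class on `Y`, let `F'` be a conjugate of `1 ⊗ x` which is a Hodge class and `β` a class of highest
degree on `A ^ n`, with the conjugate `β'`; then the direct image of `F' ∧ β'` on `Y'` is a Hodge
class and a multiple of a conjugate of `x`.
-/

namespace Pool.Agent.Results.MP_e2e4f5_ag.IndependentFactor

open Pool.Agent.H204R3.CM Pool.Agent.W437.HC Pool.Agent.TH131.GHC Pool.Agent.TH504.VY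
  Pool.Agent.R913.Ind

/-- **Independent factors**: if the abelian variety `A` with the period matrix `Z` and the variety `Y`
have no common part then, for all `n`, the Hodge classes on `A ^ n × Y` have conjugates which are Hodge
classes on the conjugate variety if and only if this holds for `Y`, and then the Hodge classes on
`A ^ n × Y` and their conjugates are sums of products of Hodge classes. -/
theorem result {g v v' : ℕ} (Z Z' : Matrix (Fin g) (Fin g) ℂ) (hZ : Z.transpose = Z)
    (hpos : (Z.map Complex.im).PosDef) (Y : Coh v) (Y' : Coh v')
    (h : ∀ X, IsCommonPart (DZ Z) (entrySpan Y.z) X → X = 0) (n : ℕ) :
    ConjReducesToY (powPer Z n) (powPer Z' n) Y Y' :=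
  conj_main hZ hpos Y Y' (indep (polOf hZ hpos) (W := entrySpan Y.z)
    (fun i j => Submodule.subset_span ⟨i, j, rfl⟩) h)

end Pool.Agent.Results.MP_e2e4f5_ag.IndependentFactor
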