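import Pool.Agent.R299.AHT.Main
import Pool.Agent.Y1.HZ.Betti

/-!
# The absolute Hodge conjecture for the products of all abelian varieties with complex multiplication
and all unrelated varieties

Let `A` be **any** abelian variety with complex multiplication: a product of copies of abelian
varieties of CM types `(E i, Φ i)`, for CM fields `E i` and all their CM types, degenerate or not. Let
`Z` be **any** smooth projective complex variety which is unrelated to the fields `E i`
(`UnrelatedHodge`, see below). We prove (`AbsHodgeTimes`):

* every Hodge class on `A × Z` is a sum of products `f ⊗ x` of Hodge classes `f` on `A` and `x` on `Z`;
* **the absolute Hodge conjecture for `A × Z` is equivalent to the absolute Hodge conjecture for `Z`**,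
  for each automorphism `σ` of the complex numbers, and separately for the de Rham part (Q1) and for
  the `ℓ`-adic part (Q2) for each prime `ℓ`.

In particular both parts hold for `A × Z` if `Z` is a curve, a surface or a threefold, or any other
variety for which the Hodge conjecture or the absolute Hodge conjecture is known.

The condition on `Z`: let `w ≠ 0` be a vector in the complex cohomology of `Z` such that for each
automorphism `σ` of `ℂ` the conjugate `σ w` is of pure type, a sum of classes of types `(p, q)` with
`p - q = d σ` (`HasTypes`). Then a function `n` on the complex embeddings of `E i` with
`n (conj φ) = - n φ` which is invariant under all automorphisms `τ` of `ℂ` with `d (σ τ) = d σ` for all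
`σ` is zero. So only the parts of the cohomology of `Z` with complex multiplication matter, and only
their fields of definition. The second and the third part of the theorem are two criteria:

* (`BettiCriterion`) `Z` is unrelated to `E` if all Betti numbers of `Z` are less than `2 * dim S` for
  all nonzero spaces `S` of functions `n` with `n (conj φ) = - n φ` that are stable under the
  automorphisms of `ℂ`. For a general CM field `E` of degree `2 g` there is only one such space and
  its dimension is `g`. So for all abelian varieties `A` with complex multiplication by such a field
  and **all varieties `Z` with Betti numbers less than `2 g`** the absolute Hodge conjecture for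
  `A × Z` is equivalent to the absolute Hodge conjecture for `Z`.
* (`NoCMParts`) if the cohomology of `Z` has no parts with complex multiplication except those of
  types `(p, p)`, then `Z` is unrelated to all CM fields. So for such `Z` (for instance for the general
  members of most families of varieties) the equivalence holds for **all** abelian varieties `A` with
  complex multiplication.

The cohomology of `Z` is given by `V : Coh v` (starting files), a rational space with a basis of
homogeneous elements and the Hodge operator `V.z`, the multiplication by `p - q` on the classes of
type `(p, q)`. `HAZ W v` is the cohomology of `A × Z`: the alternating forms on the homology `W` of `A`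
with values in the cohomology of `Z`.

The comparison. Let `σ` be an automorphism of `ℂ` and `A' = A_σ`, `Z' = Z_σ`. The transport of the
cohomology and the comparison isomorphisms (with coefficients `R = ℂ` for the de Rham part, and an
extension `R` of `ℚ_ℓ` for the `ℓ`-adic part) transform a rational class `x` on `Z` into `D x`; `D` is
the matrix (`Comparison.D`) whose columns are the images of the elements of the rational basis (for
the de Rham part the map is `σ`-semilinear, but it is applied only to rational classes). In the same
way a vector `w` of the rational homology of `A` is transformed into `κ w`. A class `F` on `A × Z` is
transformed into the class `F'` on `A' × Z'` with `F' (κ w_1, ..., κ w_k) = D (F (w_1, ..., w_k))`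
(`Comparison.RelAZ`). The Tate twists are distributed: in degree `b` the matrix `D` contains the factor
`u ^ (b / 2)` and `κ` the factor `u ^ (- 1 / 2)`, where `u` is the number (`σ (2 π i) / (2 π i)` for the de
Rham part) that compares the twists `ℚ (1)`; `R` contains a square root of `u`. The field
`Comparison.deligne` is the theorem of Deligne that Hodge classes on abelian varieties are absolute
Hodge classes. The theorem holds for all comparisons with coefficients in arbitrary fields `R` of
characteristic zero.

The proof. The components `e_S ⊗ w_S` of a Hodge class on `A × Z` with respect to the monomials `e_S` in
the eigenvectors of the CM fields are considered. Let `s` be the sign function of the CM types, `n_S` the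
difference of the numbers of an embedding and its conjugate in `S`. Then `w_S` and its conjugates are
of pure type with `d σ = - (n_S, σ⁻¹ s) / 2`. If `G` is the Galois group then the function
`n = ∑_(σ in G) (n_S, σ s) σ s` is invariant under the automorphisms which preserve `d`, so that it is
zero if `Z` is unrelated to the fields; but then `0 = (n_S, n) = ∑ (n_S, σ s) ^ 2` and `d = 0`. So the
values of the class are Hodge classes on `Z`, and its coordinates are Hodge classes on `A`. This
permits all CM types; in the starting files `AllCMFieldsTimes` only nondegenerate types and
pairwise independent fields are possible.
-/

namespace Pool.Agent.Results.MP_e2e4f5_ag.TimesUnrelatedCM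

open NumberField Pool.Agent.H204R3.CM Pool.Agent.TH131.GHC Pool.Agent.Y1.HZ Pool.Agent.R299.AHT

/-- **The absolute Hodge conjecture for the products of all abelian varieties with complex
multiplication and all unrelated varieties.** -/
theorem result :
    (∀ (ι : Type) [Fintype ι] (E : ι → Type) [∀ i, Field (E i)] [∀ i, NumberField (E i)]
      [∀ i, IsCMField (E i)] (Φ : ∀ i, Set (E i →+* ℂ)), (∀ i, IsCMType (Φ i)) →
      AbsHodgeTimes Φ) ∧
    BettiCriterion ∧
    ∀ (v : ℕ) (V : Coh v), NoCMParts V → ∀ (E : Type) [Field E], UnrelatedHodge V E :=
  ⟨fun _ _ _ _ _ _ _ hΦ => absHodgeTimes_holds hΦ, bettiCriterion_holds,
    fun _ _ h E _ => unrelated_of_noCM h E⟩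

end Pool.Agent.Results.MP_e2e4f5_ag.TimesUnrelatedCM
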